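import Pool.Agent.Lib.MP_c7af3c_ag.T2.IfaceB

/-!
# MP_c7af3c_ag, project T2: the cubic block (M3), definitions and module statements
`Q` a frame of the plane with `Q 0` on the line of the point, `G` ten sextics. The matrix `cM` has
15 + 2 rows (the coordinates of the three vectors of the frame, two more rows) and 7 + 10 columns
(the infinitesimal changes of the frame, the variations of the frame by the ten sextics).
-/

set_option autoImplicit false

namespace Pool.Agent.T2.M3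

open MvPolynomial Pool.Agent.Gen Pool.Agent.Sharp Pool.Agent.Edge Pool.Agent.T2
open Pool.Agent.Edge.H65 (ssub)

/-- the exponents of degree 3 in three variables -/
abbrev I10 : Type := ↥((Finset.univ : Finset (Fin 3)).finsuppAntidiag 3)

/-- the rows -/
abbrev Rw : Type := (Fin 3 × Fin 5) ⊕ Fin 2

/-- the columns -/
abbrev Cl : Type := (Unit ⊕ Fin 2 × Fin 3) ⊕ I10

section

variable {L : Type} [Field L]

/-- the matrix of the substitution `X_i ↦ ∑ j, m i j X_j` on cubic forms -/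
noncomputable def s3 (m : Matrix (Fin 3) (Fin 3) L) : Matrix I10 I10 L :=
  Matrix.of fun I J => coeff J.1 (∏ i, (∑ j, C (m i j) * X j) ^ (I.1 i))

/-- the columns -/
noncomputable def cM (D : D6 L) (Q : Fin 3 → Fin 5 → L) (G : I10 → MvPolynomial (Fin 5) L)
    (r : Fin 2 → I10 → L) : Cl → Rw → L
  | Sum.inl (Sum.inl _) => Sum.elim (fun p => if p.1 = 0 then Q 0 p.2 else 0) fun _ => 0
  | Sum.inl (Sum.inr q) => Sum.elim (fun p => if p.1 = q.1.succ then Q q.2 p.2 else 0) fun _ => 0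
  | Sum.inr I => Sum.elim (fun p => D.V (Q p.1) 0 (G I) p.2) fun s => r s I

/-- the determinant -/
noncomputable def dM (e : Cl ≃ Rw) (D : D6 L) (Q : Fin 3 → Fin 5 → L)
    (G : I10 → MvPolynomial (Fin 5) L) (r : Fin 2 → I10 → L) : L :=
  Matrix.det (Matrix.of fun a k => cM D Q G r k (e a))

/-- the coordinates `τ` of the frame -/
def Mt (P : Fin 3 → Fin 5 → L) (τ : Fin 3 → Fin 5) : Matrix (Fin 3) (Fin 3) L :=
  Matrix.of fun i j => P i (τ j)

/-- the sextics `B X_t^I` -/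
noncomputable def GB (t : Fin 3 → Fin 5) (B : MvPolynomial (Fin 3) L) (I : I10) :
    MvPolynomial (Fin 5) L :=
  rename t (B * monomial I.1 1)

/-- two unit rows -/
def e2 (J J' : I10) : Fin 2 → I10 → L := ![Pi.single J 1, Pi.single J' 1]

end

/-- Row M3_S1: `det (S^3 m) = (det m)^10`. -/
def S1Statement : Prop := ∀ (L : Type) [Field L] [CharZero L] (m : Matrix (Fin 3) (Fin 3) L),
  m.det ≠ 0 → (s3 m).det = m.det ^ 10

/-- Row M3_S2: the minors of size two of `S^3 m`. -/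
def S2Statement : Prop := ∀ (L : Type) [Field L] (Γ : Type)
  [LinearOrderedCommGroupWithZero Γ] (v : Valuation L Γ) (m : Matrix (Fin 3) (Fin 3) L),
  m.det ≠ 0 → (∀ i j, v (m⁻¹ i j) ≤ 1) → ∀ I I' J J' : I10,
  v (s3 m I J * s3 m I' J' - s3 m I J' * s3 m I' J) ≤ v m.det ^ 5

/-- Row M3_F: change of the frame (block determinants, `Matrix.det_kronecker`). -/
def FStatement : Prop := ∀ (L : Type) [Field L] [CharZero L] (D : D6 L) (e : Cl ≃ Rw)
  (P Q : Fin 3 → Fin 5 → L) (g : Matrix (Fin 3) (Fin 3) L) (G : I10 → MvPolynomial (Fin 5) L)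
  (r : Fin 2 → I10 → L), g.det ≠ 0 → g 0 1 = 0 → g 0 2 = 0 →
  (∀ i f, P i f = ∑ j, g i j * Q j f) →
  dM e D P G r = g.det ^ 4 * g 0 0 ^ 3 * dM e D Q G r

/-- Row M3_E: the estimate for a bounded frame (Cramer). -/
def EStatement : Prop := ∀ (L : Type) [Field L] [CharZero L] (Γ : Type)
  [LinearOrderedCommGroupWithZero Γ] (v : Valuation L Γ) (M : Γ) (D : D6 L), 1 ≤ M →
  (∀ m I, I.degree = 6 → ∀ f, v f ≤ 1 → v (D.del m I f) ≤ M) →
  ∀ (e : Cl ≃ Rw) (Q : Fin 3 → Fin 5 → L) (G : I10 → MvPolynomial (Fin 5) L)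
  (r : Fin 2 → I10 → L) (b : L) (ε : I10 → L), (∀ I, (G I).IsHomogeneous 6) →
  (∀ I J, v (coeff J (G I)) ≤ 1) → eval (Q 0) (D.F 0) = 0 → (∃ s, Q 0 s = 1) →
  (∀ i f, v (Q i f) ≤ 1) → (∀ I, eval (Q 0) (G I) = b * ε I) → (∀ I, v (ε I) ≤ 1) →
  (∀ s I, v (r s I) ≤ 1) → v (dM e D Q G r) ≤ v b * M ^ 10

/-- Row M3_A: the adapted frame. -/
def AStatement : Prop := ∀ (L : Type) [Field L] (Γ : Type)
  [LinearOrderedCommGroupWithZero Γ] (v : Valuation L Γ) (x : Fin 5 → L) (t : Fin 3 → Fin 5)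
  (P : Fin 3 → Fin 5 → L), (∀ i j, P i (t j) = if i = j then 1 else 0) → x (t 0) = 1 →
  (∀ f, x f = ∑ i, P i f * x (t i)) →
  ∃ (t' : Fin 3 → Fin 5) (Q : Fin 3 → Fin 5 → L) (g : Matrix (Fin 3) (Fin 3) L),
    (Mt P t').det ≠ 0 ∧ (∀ i j, v ((Mt P t')⁻¹ i j) ≤ 1) ∧
    (∀ τ, v (Mt P τ).det ≤ v (Mt P t').det) ∧ g.det ≠ 0 ∧ v g.det = v (Mt P t').det ∧
    g 0 1 = 0 ∧ g 0 2 = 0 ∧
    (∀ i f, (![x, P 1, P 2] : Fin 3 → Fin 5 → L) i f = ∑ j, g i j * Q j f) ∧
    (∀ i f, v (Q i f) ≤ 1) ∧ ∃ s, Q 0 s = 1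

/-- Row M3_C: the local inequality. -/
def CStatement : Prop := S1Statement → S2Statement → FStatement → EStatement → AStatement →
  ∀ (L : Type) [Field L] [CharZero L] (Γ : Type) [LinearOrderedCommGroupWithZero Γ]
  (v : Valuation L Γ) (M : Γ) (D : D6 L) (x : Fin 5 → L) (t : Fin 3 → Fin 5)
  (P : Fin 3 → Fin 5 → L), 1 ≤ M →
  (∀ m I, I.degree = 6 → ∀ f, v f ≤ 1 → v (D.del m I f) ≤ M) → Pl D x t P →
  ∀ B : MvPolynomial (Fin 3) ℤ, B.IsHomogeneous 3 → ∀ (e : Cl ≃ Rw) (J J' : I10)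
  (τ : Fin 3 → Fin 5),
  v (Mt P τ).det * v (dM e D ![x, P 1, P 2]
    (GB t (MvPolynomial.map (Int.castRingHom L) B)) (e2 J J')) ≤
  v (eval (fun i => x (t i)) (MvPolynomial.map (Int.castRingHom L) B)) * M ^ 10

/-- Row M3_O1: a determinant which is not zero. -/
def O1Statement : Prop := ∀ (K : Type) [Field K] [CharZero K] (D : D6 K) (x : Fin 5 → K)
  (t : Fin 3 → Fin 5) (P : Fin 3 → Fin 5 → K), Pl D x t P → R20 (R6 D x t P) →
  ∀ B : MvPolynomial (Fin 3) K, B.IsHomogeneous 3 → R6 D x t P ⊔ mulS B 3 = S3 K 6 →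
  ∀ e : Cl ≃ Rw, ∃ J J' : I10, dM e D ![x, P 1, P 2] (GB t B) (e2 J J') ≠ 0

/-- Row M3_O2: the relation from `F'(x)`. -/
def O2Statement : Prop := ∀ (K : Type) [Field K] [CharZero K] (D : D6 K) (x : Fin 5 → K)
  (t : Fin 3 → Fin 5) (P : Fin 3 → Fin 5 → K), Pl D x t P →
  ∀ B : MvPolynomial (Fin 3) K, B.IsHomogeneous 3 → ∀ (e : Cl ≃ Rw) (J : I10),
  eval (fun i => x (t i)) B * ∑ J' : I10, eval (fun i => x (t i)) (monomial J'.1 (1 : K)) *
    dM e D ![x, P 1, P 2] (GB t B) (e2 J J') = 0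

/-- Row M3_O3: assembly. -/
def O3Statement : Prop := S1Statement → S2Statement → FStatement → EStatement → AStatement →
  CStatement → O1Statement → O2Statement → OntoStatement

end Pool.Agent.T2.M3
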